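import Pool.Agent.H223.PS.Engine

/-! Power savings and residue classes modulo powers of `p`. -/

set_option autoImplicit false

open MeasureTheory Filter Topology

namespace Pool.Agent.V11243.PD

/-- a bound on the dyadic pieces gives a bound for the whole set -/
theorem dyadic {P : ℕ → Prop} {s C : ℝ} (hs : 0 < s) (hC : 0 ≤ C)
    (h : ∀ X : ℕ, 1 ≤ X → ({t : ℕ | P t ∧ X < 2 * t ∧ t ≤ X}.ncard : ℝ) ≤ C * (X : ℝ) ^ s) :
    ∃ K : ℝ, 0 ≤ K ∧ ∀ X : ℕ, 1 ≤ X → ({t : ℕ | P t ∧ 1 ≤ t ∧ t ≤ X}.ncard : ℝ) ≤ K * (X : ℝ) ^ s := by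
  have h2 : (0 : ℝ) < 1 - 2 ^ (-s) := by
    have : (2 : ℝ) ^ (-s) < 1 := Real.rpow_lt_one_of_one_lt_of_neg (by norm_num) (by linarith)
    linarith
  refine ⟨C / (1 - 2 ^ (-s)), by positivity, fun X => ?_⟩
  induction X using Nat.strong_induction_on with
  | _ X ih =>
    intro hX
    have hfin : ∀ (Q : ℕ → Prop) (N : ℕ), {t : ℕ | Q t ∧ t ≤ N}.Finite := fun Q N =>
      (Set.finite_Iic N).subset fun t ht => ht.2
    have hXR : (0 : ℝ) < X := by exact_mod_cast hX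
    have hsplit : ({t : ℕ | P t ∧ 1 ≤ t ∧ t ≤ X}.ncard : ℝ) ≤
        ({t : ℕ | P t ∧ 1 ≤ t ∧ t ≤ X / 2}.ncard : ℝ) + ({t : ℕ | P t ∧ X < 2 * t ∧ t ≤ X}.ncard : ℝ) := by
      have hsub : {t : ℕ | P t ∧ 1 ≤ t ∧ t ≤ X} ⊆
          {t : ℕ | P t ∧ 1 ≤ t ∧ t ≤ X / 2} ∪ {t : ℕ | P t ∧ X < 2 * t ∧ t ≤ X} := by
        rintro t ⟨a, b, c⟩
        by_cases ht : t ≤ X / 2
        · exact Or.inl ⟨a, b, ht⟩
        · exact Or.inr ⟨a, by omega, c⟩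
      have hf : ({t : ℕ | P t ∧ 1 ≤ t ∧ t ≤ X / 2} ∪ {t : ℕ | P t ∧ X < 2 * t ∧ t ≤ X}).Finite :=
        (Set.finite_Iic X).subset (by
          rintro t (⟨_, _, c⟩ | ⟨_, _, c⟩)
          · exact Set.mem_Iic.2 (by omega)
          · exact c)
      exact_mod_cast (Set.ncard_le_ncard hsub hf).trans (Set.ncard_union_le _ _)
    have hhalf : ({t : ℕ | P t ∧ 1 ≤ t ∧ t ≤ X / 2}.ncard : ℝ) ≤ C / (1 - 2 ^ (-s)) * ((X : ℝ) ^ s * 2 ^ (-s)) := by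
      rcases Nat.eq_zero_or_pos (X / 2) with h0 | h0
      · have : {t : ℕ | P t ∧ 1 ≤ t ∧ t ≤ X / 2} = ∅ := by
          ext t
          simp only [Set.mem_ofPred_eq, Set.mem_empty_iff_false, iff_false]
          rintro ⟨_, b, c⟩
          omega
        rw [this, Set.ncard_empty]
        push_cast
        positivity
      · refine (ih (X / 2) (by omega) h0).trans (mul_le_mul_of_nonneg_left ?_ (by positivity))
        calc (((X / 2 : ℕ)) : ℝ) ^ s ≤ ((X : ℝ) / 2) ^ s :=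
              Real.rpow_le_rpow (Nat.cast_nonneg _) Nat.cast_div_le hs.le
          _ = (X : ℝ) ^ s * 2 ^ (-s) := by
              rw [Real.div_rpow hXR.le (by norm_num), Real.rpow_neg (by norm_num)]
              rfl
    calc ({t : ℕ | P t ∧ 1 ≤ t ∧ t ≤ X}.ncard : ℝ)
        ≤ C / (1 - 2 ^ (-s)) * ((X : ℝ) ^ s * 2 ^ (-s)) + C * (X : ℝ) ^ s :=
          hsplit.trans (add_le_add hhalf (h X hX))
      _ = C / (1 - 2 ^ (-s)) * (X : ℝ) ^ s := by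
          field_simp
          ring

/-- **One set with a power saving.** For `α ∈ ℤ_p` outside of a set of dimension at most `s / σ` and all
large `T`, no `t ≤ T` with `|t - α|_p ≤ T ^ (-σ)` is in one of the sets `Bad j`. -/
theorem family (p : ℕ) [Fact p.Prime] (Bad : ℕ → Set ℕ) {s : ℝ} (hs : 0 ≤ s)
    (h : ∀ j, ∃ C : ℝ, ∀ X : ℝ, 1 ≤ X → ({t : ℕ | t ∈ Bad j ∧ (t : ℝ) ≤ X}.ncard : ℝ) ≤ C * X ^ s)
    {σ : ℝ} (hσ : 0 < σ) :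
    ∃ E : Set ℤ_[p], dimH E ≤ ENNReal.ofReal (s / σ) ∧ ∀ α ∉ E, ∀ j, ∃ T₀ : ℝ, ∀ T ≥ T₀, ∀ t : ℕ,
      (t : ℝ) ≤ T → ‖(t : ℤ_[p]) - α‖ ≤ T ^ (-σ) → t ∉ Bad j := by
  refine Pool.Agent.H223.PS.padic_nat p Bad hs (fun j ε hε => ?_) hσ
  obtain ⟨C, hC⟩ := h j
  refine ⟨|C|, fun X hX => ⟨(Set.finite_Iic ⌊X⌋₊).subset fun t ht => Nat.le_floor ht.2, (hC X hX).trans ?_⟩⟩
  refine (mul_le_mul_of_nonneg_right (le_abs_self C) (by positivity)).trans ?_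
  exact mul_le_mul_of_nonneg_left (Real.rpow_le_rpow_of_exponent_le hX (by linarith)) (abs_nonneg C)

/-- **Integers of both signs.** -/
theorem family_int (p : ℕ) [Fact p.Prime] (Bad : ℕ → Set ℤ) {s : ℝ} (hs : 0 ≤ s)
    (h : ∀ j, ∃ C : ℝ, ∀ X : ℝ, 1 ≤ X → ({n : ℤ | |(n : ℝ)| ≤ X ∧ n ∈ Bad j}.ncard : ℝ) ≤ C * X ^ s)
    {σ : ℝ} (hσ : 0 < σ) :
    ∃ E : Set ℤ_[p], dimH E ≤ ENNReal.ofReal (s / σ) ∧ ∀ α ∉ E, ∀ j, ∃ T₀ : ℝ, ∀ T ≥ T₀, ∀ n : ℤ,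
      |(n : ℝ)| ≤ T → ‖(n : ℤ_[p]) - α‖ ≤ T ^ (-σ) → n ∉ Bad j := by
  have hfin : ∀ (j : ℕ) (X : ℝ), {n : ℤ | |(n : ℝ)| ≤ X ∧ n ∈ Bad j}.Finite := fun j X =>
    (Set.finite_Icc (-⌊X⌋) ⌊X⌋).subset fun n hn => by
      have h1 := abs_le.1 hn.1
      refine ⟨?_, Int.le_floor.2 h1.2⟩
      have h2 : -n ≤ ⌊X⌋ := Int.le_floor.2 (by push_cast; linarith [h1.1])
      linarith
  have hc : ∀ e : ℤ, (e = 1 ∨ e = -1) → ∀ j, ∃ C : ℝ, ∀ X : ℝ, 1 ≤ X →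
      ({t : ℕ | t ∈ {t : ℕ | e * (t : ℤ) ∈ Bad j} ∧ (t : ℝ) ≤ X}.ncard : ℝ) ≤ C * X ^ s := by
    intro e he j
    obtain ⟨C, hC⟩ := h j
    refine ⟨C, fun X hX => le_trans ?_ (hC X hX)⟩
    have hinj : Function.Injective fun t : ℕ => e * (t : ℤ) := by
      intro a b hab
      have hab' : e * (a : ℤ) = e * (b : ℤ) := hab
      rcases he with rfl | rfl
      · simpa using hab'
      · simpa using hab'
    rw [← Set.ncard_image_of_injective _ hinj]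
    have : (fun t : ℕ => e * (t : ℤ)) '' {t : ℕ | t ∈ {t : ℕ | e * (t : ℤ) ∈ Bad j} ∧ (t : ℝ) ≤ X} ⊆
        {n : ℤ | |(n : ℝ)| ≤ X ∧ n ∈ Bad j} := by
      rintro _ ⟨t, ⟨h1, h2⟩, rfl⟩
      refine ⟨?_, h1⟩
      rcases he with rfl | rfl
      · simpa using h2
      · simpa using h2
    exact_mod_cast Set.ncard_le_ncard this (hfin j X)
  obtain ⟨E₁, h1, g1⟩ := family p (fun j => {t : ℕ | (1 : ℤ) * (t : ℤ) ∈ Bad j}) hs (hc 1 (Or.inl rfl)) hσ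
  obtain ⟨E₂, h2, g2⟩ := family p (fun j => {t : ℕ | (-1 : ℤ) * (t : ℤ) ∈ Bad j}) hs (hc (-1) (Or.inr rfl)) hσ
  refine ⟨E₁ ∪ (fun x => -x) '' E₂, ?_, fun α hα j => ?_⟩
  · rw [dimH_union]
    refine max_le h1 ?_
    have : dimH ((fun x : ℤ_[p] => -x) '' E₂) = dimH E₂ := (IsometryEquiv.neg ℤ_[p]).isometry.dimH_image E₂
    rw [this]
    exact h2
  · rw [Set.mem_union, not_or] at hα
    have hα2 : -α ∉ E₂ := fun h => hα.2 ⟨-α, h, neg_neg α⟩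
    obtain ⟨T₁, hT₁⟩ := g1 α hα.1 j
    obtain ⟨T₂, hT₂⟩ := g2 (-α) hα2 j
    refine ⟨max T₁ T₂, fun T hT n hn hnα => ?_⟩
    obtain ⟨t, rfl | rfl⟩ := n.eq_nat_or_neg
    · have h3 := hT₁ T ((le_max_left _ _).trans hT) t (by simpa using hn) (by simpa using hnα)
      simpa using h3
    · have e : ‖(t : ℤ_[p]) - -α‖ ≤ T ^ (-σ) := by
        have : ((t : ℤ_[p]) - -α) = -((((-(t : ℤ)) : ℤ) : ℤ_[p]) - α) := by
          push_cast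
          ring
        rw [this, norm_neg]
        exact hnα
      have h3 := hT₂ T ((le_max_right _ _).trans hT) t (by simpa using hn) e
      simpa using h3

end Pool.Agent.V11243.PD
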