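import Pool.Agent.V11243.PD.Base
import Pool.Agent.TH930.UD.Set

/-! The integers `x` such that for some odd `d` prime to `3` with `|d| ≤ |x| ^ δ` no element of the `3x+d`
orbit is `≤ |x| ^ η` in absolute value. -/

set_option autoImplicit false

namespace Pool.Agent.V11243.PD

/-- the `3x+d` map on the integers -/
def T (d x : ℤ) : ℤ := if x % 2 = 0 then x / 2 else (3 * x + d) / 2

/-- the exceptional integers -/
def Bad (δ η : ℝ) : Set ℤ :=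
  {x | ∃ d : ℤ, d % 2 = 1 ∧ ¬ (3 : ℤ) ∣ d ∧ |(d : ℝ)| ≤ |(x : ℝ)| ^ δ ∧
    ∀ k : ℕ, |(x : ℝ)| ^ η < |(((T d)^[k] x : ℤ) : ℝ)|}

/-- the integers `x` with `|x| ≤ X` whose `3x+d` orbit has all its elements larger than `y` in absolute value -/
def Exc (d : ℤ) (X y : ℝ) : Set ℤ := {x : ℤ | |(x : ℝ)| ≤ X ∧ ∀ n : ℕ, y < |(((T d)^[n] x : ℤ) : ℝ)|}

theorem fin_le (X : ℝ) (P : ℤ → Prop) : {x : ℤ | |(x : ℝ)| ≤ X ∧ P x}.Finite := by
  refine (Set.finite_Icc (-⌊X⌋) ⌊X⌋).subset fun x hx => ?_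
  have h := abs_le.1 hx.1
  refine ⟨?_, Int.le_floor.2 h.2⟩
  have h2 : -x ≤ ⌊X⌋ := Int.le_floor.2 (by push_cast; linarith [h.1])
  linarith

/-- the odd `d` prime to `3` with `|d| ≤ D` -/
noncomputable def GD (D : ℝ) : Finset ℤ :=
  (Finset.Icc (-⌊D⌋) ⌊D⌋).filter fun d => d % 2 = 1 ∧ ¬ (3 : ℤ) ∣ d ∧ |(d : ℝ)| ≤ D

theorem mem_GD {D : ℝ} {d : ℤ} (h1 : d % 2 = 1) (h3 : ¬ (3 : ℤ) ∣ d) (hD : |(d : ℝ)| ≤ D) : d ∈ GD D := by
  refine Finset.mem_filter.2 ⟨Finset.mem_Icc.2 ⟨?_, Int.le_floor.2 (abs_le.1 hD).2⟩, h1, h3, hD⟩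
  have h2 : -d ≤ ⌊D⌋ := Int.le_floor.2 (by push_cast; linarith [(abs_le.1 hD).1])
  linarith

/-- an upper part -/
theorem upper {δ η : ℝ} (hδ : 0 ≤ δ) (hη : 0 < η) (X : ℕ) (hX : 1 ≤ X) :
    ({x : ℤ | |(x : ℝ)| ≤ X ∧ (X : ℝ) / 2 < |(x : ℝ)| ∧ x ∈ Bad δ η}.ncard : ℝ) ≤
      ∑ d ∈ GD ((X : ℝ) ^ δ), ((Exc d X (((X : ℝ) / 2) ^ η)).ncard : ℝ) := by
  classical
  have hXR : (1 : ℝ) ≤ X := by exact_mod_cast hX
  set F : Finset ℤ := (GD ((X : ℝ) ^ δ)).biUnion fun d =>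
    (fin_le X fun x => ∀ n : ℕ, ((X : ℝ) / 2) ^ η < |(((T d)^[n] x : ℤ) : ℝ)|).toFinset with hF
  have hsub : {x : ℤ | |(x : ℝ)| ≤ X ∧ (X : ℝ) / 2 < |(x : ℝ)| ∧ x ∈ Bad δ η} ⊆ (F : Set ℤ) := by
    rintro x ⟨hx, hx2, d, h1, h3, hD, hk⟩
    simp only [hF, Finset.coe_biUnion, Set.mem_iUnion, Finset.mem_coe, Set.Finite.coe_toFinset]
    refine ⟨d, mem_GD h1 h3 (hD.trans (Real.rpow_le_rpow (abs_nonneg _) hx hδ)), hx, fun n => ?_⟩
    exact (Real.rpow_le_rpow (by positivity) hx2.le hη.le).trans_lt (hk n)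
  have h1 : {x : ℤ | |(x : ℝ)| ≤ X ∧ (X : ℝ) / 2 < |(x : ℝ)| ∧ x ∈ Bad δ η}.ncard ≤ F.card := by
    rw [← Set.ncard_coe_finset F]
    exact Set.ncard_le_ncard hsub (Finset.finite_toSet F)
  have h2 : F.card ≤ ∑ d ∈ GD ((X : ℝ) ^ δ), (Exc d X (((X : ℝ) / 2) ^ η)).ncard := by
    refine (Finset.card_biUnion_le).trans (Finset.sum_le_sum fun d _ => ?_)
    rw [← Set.ncard_eq_toFinset_card _ (fin_le X fun x => ∀ n : ℕ, ((X : ℝ) / 2) ^ η < |(((T d)^[n] x : ℤ) : ℝ)|)]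
    exact le_rfl
  refine (Nat.cast_le.2 (h1.trans h2)).trans ?_
  rw [Nat.cast_sum]

/-- sums over dyadic scales -/
theorem dyadic_fun {N : ℕ → ℝ} {s C : ℝ} (hs : 0 < s) (hC : 0 ≤ C) (h0 : N 0 ≤ 0)
    (h : ∀ X : ℕ, 1 ≤ X → N X ≤ N (X / 2) + C * (X : ℝ) ^ s) :
    ∃ K : ℝ, 0 ≤ K ∧ ∀ X : ℕ, N X ≤ K * (X : ℝ) ^ s := by
  have h2 : (0 : ℝ) < 1 - 2 ^ (-s) := by
    have : (2 : ℝ) ^ (-s) < 1 := Real.rpow_lt_one_of_one_lt_of_neg (by norm_num) (by linarith)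
    linarith
  refine ⟨C / (1 - 2 ^ (-s)), by positivity, fun X => ?_⟩
  induction X using Nat.strong_induction_on with
  | _ X ih =>
    rcases Nat.eq_zero_or_pos X with rfl | hX
    · exact h0.trans (by positivity)
    · have hXR : (0 : ℝ) < X := by exact_mod_cast hX
      have h3 := (ih (X / 2) (by omega)).trans (mul_le_mul_of_nonneg_left
        (show ((X / 2 : ℕ) : ℝ) ^ s ≤ (X : ℝ) ^ s * 2 ^ (-s) by
          calc (((X / 2 : ℕ)) : ℝ) ^ s ≤ ((X : ℝ) / 2) ^ s :=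
                Real.rpow_le_rpow (Nat.cast_nonneg _) Nat.cast_div_le hs.le
            _ = (X : ℝ) ^ s * 2 ^ (-s) := by
                rw [Real.div_rpow hXR.le (by norm_num), Real.rpow_neg (by norm_num)]
                rfl) (by positivity : 0 ≤ C / (1 - 2 ^ (-s))))
      calc N X ≤ C / (1 - 2 ^ (-s)) * ((X : ℝ) ^ s * 2 ^ (-s)) + C * (X : ℝ) ^ s :=
            (h X hX).trans (add_le_add h3 le_rfl)
        _ = C / (1 - 2 ^ (-s)) * (X : ℝ) ^ s := by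
            field_simp
            ring

/-- **The count.** -/
theorem count_bad {δ η c : ℝ} (hδ : 0 ≤ δ) (hδη : δ < η) (hη1 : η ≤ 1) (hc0 : 0 < c)
    (hc : c < 1 - Pool.Agent.H319R2.beta) :
    ∃ K : ℝ, ∀ X : ℝ, 1 ≤ X →
      ({x : ℤ | |(x : ℝ)| ≤ X ∧ x ∈ Bad δ η}.ncard : ℝ) ≤ K * X ^ (1 - c * η + (1 - c) * δ) := by
  have hb := Pool.Agent.TH930.PS.beta_pos
  have hc1 : c < 1 := by linarith
  have hη : 0 < η := by linarith
  set s : ℝ := 1 - c * η + (1 - c) * δ with hs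
  have hs0 : 0 < s := by
    have h1 : c * η < 1 := by nlinarith
    have h2 : 0 ≤ (1 - c) * δ := mul_nonneg (by linarith) hδ
    linarith
  set ε : ℝ := (η - δ) / (2 * (δ + 1)) with hε
  have hε0 : 0 < ε := by
    have : 0 < η - δ := by linarith
    positivity
  have hεη : δ * (1 + ε) < η := by
    have h1 : δ * ε ≤ (δ + 1) * ε := mul_le_mul_of_nonneg_right (by linarith) hε0.le
    have h2 : (δ + 1) * ε = (η - δ) / 2 := by rw [hε]; field_simp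
    nlinarith
  obtain ⟨C, hC, h⟩ := Pool.Agent.TH930.UD.set_saving hc0 hc hε0
  -- large X
  obtain ⟨X₀, hX₀⟩ : ∃ X₀ : ℕ, ∀ X : ℕ, X₀ ≤ X → (2 : ℝ) ^ η ≤ (X : ℝ) ^ (η - δ * (1 + ε)) := by
    have h1 := (tendsto_rpow_atTop (show 0 < η - δ * (1 + ε) by linarith)).comp tendsto_natCast_atTop_atTop
    obtain ⟨X₀, h2⟩ := Filter.eventually_atTop.1 (h1.eventually_ge_atTop ((2 : ℝ) ^ η))
    exact ⟨X₀, fun X hX => h2 X hX⟩
  set N : ℕ → ℝ := fun X => ({x : ℤ | |(x : ℝ)| ≤ (X : ℝ) ∧ x ∈ Bad δ η}.ncard : ℝ) with hN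
  have hN0 : N 0 ≤ 0 := by
    have : {x : ℤ | |(x : ℝ)| ≤ ((0 : ℕ) : ℝ) ∧ x ∈ Bad δ η} = ∅ := by
      ext x
      simp only [Set.mem_ofPred_eq, Set.mem_empty_iff_false, iff_false]
      rintro ⟨hx, d, -, -, -, hk⟩
      have hx0 : x = 0 := by
        have : |(x : ℝ)| ≤ 0 := by simpa using hx
        exact_mod_cast abs_nonpos_iff.1 this
      have := hk 0
      rw [hx0] at this
      simp [Real.zero_rpow hη.ne'] at this
    rw [hN]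
    simp only
    rw [this]
    simp
  have hstep : ∀ X : ℕ, 1 ≤ X → N X ≤ N (X / 2) + (C * 2 ^ (η * c) + (2 * X₀ + 1)) * (X : ℝ) ^ s := by
    intro X hX
    have hXR : (1 : ℝ) ≤ X := by exact_mod_cast hX
    have hXs : 1 ≤ (X : ℝ) ^ s := Real.one_le_rpow hXR hs0.le
    have hsplit : N X ≤ N (X / 2) +
        ({x : ℤ | |(x : ℝ)| ≤ X ∧ (X : ℝ) / 2 < |(x : ℝ)| ∧ x ∈ Bad δ η}.ncard : ℝ) := by
      have hsub : {x : ℤ | |(x : ℝ)| ≤ (X : ℝ) ∧ x ∈ Bad δ η} ⊆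
          {x : ℤ | |(x : ℝ)| ≤ ((X / 2 : ℕ) : ℝ) ∧ x ∈ Bad δ η} ∪
          {x : ℤ | |(x : ℝ)| ≤ X ∧ (X : ℝ) / 2 < |(x : ℝ)| ∧ x ∈ Bad δ η} := by
        rintro x ⟨a, b⟩
        by_cases hx : (X : ℝ) / 2 < |(x : ℝ)|
        · exact Or.inr ⟨a, hx, b⟩
        · refine Or.inl ⟨?_, b⟩
          rw [not_lt] at hx
          have e1 : |(x : ℝ)| = (x.natAbs : ℝ) := by rw [Nat.cast_natAbs, Int.cast_abs]
          rw [e1] at hx ⊢
          have e2 : 2 * x.natAbs ≤ X := by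
            have : (2 : ℝ) * (x.natAbs : ℝ) ≤ X := by linarith
            exact_mod_cast this
          have e3 : x.natAbs ≤ X / 2 := by omega
          exact_mod_cast e3
      have hf := (fin_le ((X / 2 : ℕ) : ℝ) fun x => x ∈ Bad δ η).union
        (fin_le (X : ℝ) fun x => (X : ℝ) / 2 < |(x : ℝ)| ∧ x ∈ Bad δ η)
      have h9 := (Set.ncard_le_ncard hsub hf).trans (Set.ncard_union_le _ _)
      have h10 : ((_ : ℕ) : ℝ) ≤ ((_ + _ : ℕ) : ℝ) := Nat.cast_le.2 h9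
      rw [Nat.cast_add] at h10
      exact h10
    refine hsplit.trans (add_le_add le_rfl ?_)
    by_cases hbig : X₀ ≤ X
    · refine (upper hδ hη X hX).trans ?_
      have hY : ((X : ℝ) ^ δ) ^ (1 + ε) ≤ ((X : ℝ) / 2) ^ η := by
        rw [← Real.rpow_mul (by linarith), Real.div_rpow (by linarith) (by norm_num),
          le_div_iff₀ (by positivity)]
        have h1 := hX₀ X hbig
        calc (X : ℝ) ^ (δ * (1 + ε)) * 2 ^ η
            ≤ (X : ℝ) ^ (δ * (1 + ε)) * (X : ℝ) ^ (η - δ * (1 + ε)) :=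
              mul_le_mul_of_nonneg_left h1 (by positivity)
          _ = (X : ℝ) ^ η := by
              rw [← Real.rpow_add (by linarith)]
              congr 1
              ring
      have h1 := h ((X : ℝ) ^ δ) X (((X : ℝ) / 2) ^ η) (Real.one_le_rpow hXR hδ) hXR hY
        (GD ((X : ℝ) ^ δ)) (fun d hd => by
          have h2 := (Finset.mem_filter.1 hd).2
          exact ⟨Int.odd_iff.2 h2.1, h2.2⟩)
      have h3 : ∑ d ∈ GD ((X : ℝ) ^ δ), ((Exc d X (((X : ℝ) / 2) ^ η)).ncard : ℝ) ≤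
          C * ((X : ℝ) / (((X : ℝ) / 2) ^ η) ^ c) *
            min ((GD ((X : ℝ) ^ δ)).card : ℝ) (((X : ℝ) ^ δ) ^ (1 - c)) := h1
      refine (h3.trans (mul_le_mul_of_nonneg_left (min_le_right _ _) (by positivity))).trans ?_
      have hX0 : (0 : ℝ) < X := by linarith
      have h5 : C * ((X : ℝ) / (((X : ℝ) / 2) ^ η) ^ c) * (((X : ℝ) ^ δ) ^ (1 - c)) =
          C * 2 ^ (η * c) * (X : ℝ) ^ s := by
        rw [← Real.rpow_mul (by positivity), ← Real.rpow_mul (by positivity),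
          Real.div_rpow hX0.le (by norm_num)]
        have h6 : (X : ℝ) ^ s = X * ((X : ℝ) ^ (η * c))⁻¹ * (X : ℝ) ^ (δ * (1 - c)) := by
          rw [← Real.rpow_neg hX0.le]
          nth_rewrite 2 [← Real.rpow_one (X : ℝ)]
          rw [← Real.rpow_add hX0, ← Real.rpow_add hX0]
          congr 1
          rw [hs]
          ring
        rw [h6]
        have h7 : (X : ℝ) ^ (η * c) ≠ 0 := (Real.rpow_pos_of_pos hX0 _).ne'
        field_simp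
      rw [h5]
      have : (0 : ℝ) ≤ (2 * X₀ + 1) * (X : ℝ) ^ s := by positivity
      linarith
    · have hfin := fin_le (X : ℝ) fun x => (X : ℝ) / 2 < |(x : ℝ)| ∧ x ∈ Bad δ η
      have hsub : {x : ℤ | |(x : ℝ)| ≤ X ∧ (X : ℝ) / 2 < |(x : ℝ)| ∧ x ∈ Bad δ η} ⊆
          ((Finset.Icc (-(X₀ : ℤ)) X₀ : Finset ℤ) : Set ℤ) := by
        rintro x ⟨a, -⟩
        have e1 : |(x : ℝ)| = (x.natAbs : ℝ) := by rw [Nat.cast_natAbs, Int.cast_abs]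
        rw [e1] at a
        have e2 : x.natAbs ≤ X := by exact_mod_cast a
        rw [Finset.mem_coe, Finset.mem_Icc]
        omega
      have h1 := Set.ncard_le_ncard hsub (Finset.finite_toSet _)
      rw [Set.ncard_coe_finset, Int.card_Icc] at h1
      have h2 : ({x : ℤ | |(x : ℝ)| ≤ X ∧ (X : ℝ) / 2 < |(x : ℝ)| ∧ x ∈ Bad δ η}.ncard : ℝ) ≤ 2 * X₀ + 1 := by
        have : {x : ℤ | |(x : ℝ)| ≤ X ∧ (X : ℝ) / 2 < |(x : ℝ)| ∧ x ∈ Bad δ η}.ncard ≤ 2 * X₀ + 1 := by omega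
        exact_mod_cast this
      refine h2.trans ?_
      have h3 : (0 : ℝ) ≤ C * 2 ^ (η * c) * (X : ℝ) ^ s := by positivity
      have h4 : (2 * (X₀ : ℝ) + 1) * 1 ≤ (2 * X₀ + 1) * (X : ℝ) ^ s :=
        mul_le_mul_of_nonneg_left hXs (by positivity)
      nlinarith
  obtain ⟨K, hK, hKN⟩ := dyadic_fun hs0 (by positivity) hN0 hstep
  refine ⟨K, fun X hX => ?_⟩
  have h1 := hKN ⌊X⌋₊
  have hsub : {x : ℤ | |(x : ℝ)| ≤ X ∧ x ∈ Bad δ η} ⊆ {x : ℤ | |(x : ℝ)| ≤ ((⌊X⌋₊ : ℕ) : ℝ) ∧ x ∈ Bad δ η} := by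
    rintro x ⟨a, b⟩
    refine ⟨?_, b⟩
    have e1 : |(x : ℝ)| = (x.natAbs : ℝ) := by rw [Nat.cast_natAbs, Int.cast_abs]
    rw [e1] at a ⊢
    exact_mod_cast Nat.le_floor a
  have h2 : ({x : ℤ | |(x : ℝ)| ≤ X ∧ x ∈ Bad δ η}.ncard : ℝ) ≤ N ⌊X⌋₊ :=
    Nat.cast_le.2 (Set.ncard_le_ncard hsub (fin_le _ _))
  refine (h2.trans h1).trans (mul_le_mul_of_nonneg_left ?_ hK)
  exact Real.rpow_le_rpow (Nat.cast_nonneg _) (Nat.floor_le (by linarith)) hs0.le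

end Pool.Agent.V11243.PD
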